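import Pool.Agent.Lib.MP_cad414_al.Cg.Main

namespace Pool.Agent.Results.MP_cad414_al.Complete

open Pool.Agent.Lib.MP_cad414_al Pool.Agent.Lib.MP_cad414_al.Cg

/-- The least number of pairwise conjugate involutions that generate a finite simple group. -/
theorem result :
    (∀ (G F : Type) [Group G] [Finite G] [IsSimpleGroup G] [Field F] [Finite F],
      (∃ a b : G, a * b ≠ b * a) →
      ((∃ n, Classic G F n) ∨ Exc G F ∨ Suz G F ∨ Ree G F ∨ YGp G 3 3 2 ∨ YGp G 4 3 2 ∨
        YGp G 4 4 2 ∨ YGp G 4 3 3 ∨ YGp G 4 4 3 → IsLeast (GenSizes G) 3) ∧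
      (Img G (alternatingGroup (Fin 8)) ∨ (Nat.card F = 9 ∧ ∃ _ : StarRing F, Uni G F 3) →
        IsLeast (GenSizes G) 4)) ∧
    ∀ N ∈ [7920, 95040, 443520, 10200960, 244823040, 175560, 604800, 50232960,
      86775571046077562880, 44352000, 898128000, 4030387200, 145926144000, 448345497600,
      460815505920, 495766656000, 42305421312000, 4157776806543360000, 273030912000000,
      51765179004000000, 90745943887872000],
      ∃ (G : Type) (_ : Group G), IsSimpleGroup G ∧ Nat.card G = N ∧ IsLeast (GenSizes G) 3 :=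
  Cg.main

end Pool.Agent.Results.MP_cad414_al.Complete
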